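import Mathlib

/-!
Elated numbers (MP_bebd57_nt).

For `b` odd the `b`-elated function maps even numbers to even numbers, so no even positive
integer is `b`-elated.  For `b = a ^ 2 * (1 + d ^ 2) - d` the two-digit number with digits
`a, a * d` is a fixed point of the `b`-elated function, different from `1`.
-/

namespace Pool.Agent.Results.MP_bebd57_nt.OddBases

/-- The leading base-`b` digit of `n` (`0` for `n = 0`). -/
def lead (b n : ℕ) : ℕ := (Nat.digits b n).getLastD 0

/-- The `b`-elated function: leading digit times the sum of the squares of all digits. -/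
def elatedFun (b n : ℕ) : ℕ := lead b n * ((Nat.digits b n).map (fun x => x ^ 2)).sum

/-- `n` is `b`-elated: some iterate of the `b`-elated function sends it to `1`. -/
def IsElated (b n : ℕ) : Prop := ∃ k : ℕ, (elatedFun b)^[k] n = 1

theorem sum_sq_mod (l : List ℕ) : (l.map (fun x => x ^ 2)).sum ≡ l.sum [MOD 2] := by
  induction l with
  | nil => rfl
  | cons x l ih =>
      simp only [List.map_cons, List.sum_cons]
      refine Nat.ModEq.add ?_ ih
      rcases Nat.even_or_odd x with h | h
      · have h1 : x ≡ 0 [MOD 2] := by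
          rw [Nat.modEq_zero_iff_dvd]; exact h.two_dvd
        calc x ^ 2 ≡ 0 ^ 2 [MOD 2] := h1.pow 2
          _ = 0 := by norm_num
          _ ≡ x [MOD 2] := h1.symm
      · have h1 : x ≡ 1 [MOD 2] := Nat.odd_iff.mp h
        calc x ^ 2 ≡ 1 ^ 2 [MOD 2] := h1.pow 2
          _ = 1 := by norm_num
          _ ≡ x [MOD 2] := h1.symm

theorem even_step {b n : ℕ} (hb : Odd b) (hn : Even n) : Even (elatedFun b n) := by
  have h1 : n ≡ (Nat.digits b n).sum [MOD 2] := Nat.modEq_digits_sum 2 b (Nat.odd_iff.mp hb) n
  have h2 := (sum_sq_mod (Nat.digits b n)).trans h1.symm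
  have h3 : n ≡ 0 [MOD 2] := by rw [Nat.modEq_zero_iff_dvd]; exact hn.two_dvd
  have h4 : 2 ∣ ((Nat.digits b n).map (fun x => x ^ 2)).sum := by
    rw [← Nat.modEq_zero_iff_dvd]; exact h2.trans h3
  exact (even_iff_two_dvd.mpr h4).mul_left _

theorem even_iterate {b n : ℕ} (hb : Odd b) (hn : Even n) (k : ℕ) :
    Even ((elatedFun b)^[k] n) := by
  induction k with
  | zero => simpa using hn
  | succ k ih =>
      rw [Function.iterate_succ_apply']
      exact even_step hb ih

theorem fixed_two_digit {b a d : ℕ} (ha : 0 < a) (hab : a < b) (had : a * d < b)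
    (hb : b + d = a ^ 2 * (1 + d ^ 2)) : elatedFun b (a * b + a * d) = a * b + a * d := by
  have hb1 : 1 < b := by omega
  have hdig : Nat.digits b (a * b + a * d) = [a * d, a] := by
    have h1 : a * b + a * d = a * d + b * a := by ring
    rw [h1, Nat.digits_add b hb1 (a * d) a had (Or.inr ha.ne')]
    rw [Nat.digits_of_lt b a ha.ne' hab]
  unfold elatedFun lead
  rw [hdig]
  simp only [List.getLastD_cons, List.getLastD_nil, List.map_cons, List.map_nil, List.sum_cons,
    List.sum_nil, add_zero]
  have : a * ((a * d) ^ 2 + a ^ 2) = a * (a ^ 2 * (1 + d ^ 2)) := by ring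
  rw [this, ← hb]; ring

theorem iterate_fixed {b n : ℕ} (h : elatedFun b n = n) (k : ℕ) : (elatedFun b)^[k] n = n :=
  Function.iterate_fixed h k

/-- (1) For every odd base `b > 2`, no even positive integer is `b`-elated.
(2) Hence for every odd base `b > 2` not every positive integer is `b`-elated.
(3) For every base `b > 2` of the form `b = a ^ 2 * (1 + d ^ 2) - d` with `a ≥ 1`, `a < b`,
`a * d < b`, the number with base-`b` digits `a, a * d` is not `b`-elated. -/
theorem result :
    (∀ b : ℕ, Odd b → 2 < b → ∀ n : ℕ, 0 < n → Even n → ¬ IsElated b n) ∧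
    (∀ b : ℕ, Odd b → 2 < b → ∃ n : ℕ, 0 < n ∧ ¬ IsElated b n) ∧
    (∀ b a d : ℕ, 2 < b → 0 < a → a < b → a * d < b → b + d = a ^ 2 * (1 + d ^ 2) →
      0 < a * b + a * d ∧ ¬ IsElated b (a * b + a * d)) := by
  have key : ∀ b : ℕ, Odd b → 2 < b → ∀ n : ℕ, 0 < n → Even n → ¬ IsElated b n := by
    rintro b hb - n - hn ⟨k, hk⟩
    have := even_iterate hb hn k
    rw [hk] at this
    exact absurd this (by decide)
  refine ⟨key, fun b hb h2 => ⟨2, by norm_num, key b hb h2 2 (by norm_num) (by decide)⟩, ?_⟩
  intro b a d hb ha hab had h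
  have hpos : 2 < a * b + a * d := by nlinarith
  refine ⟨by omega, ?_⟩
  rintro ⟨k, hk⟩
  rw [iterate_fixed (fixed_two_digit ha hab had h)] at hk
  omega

end Pool.Agent.Results.MP_bebd57_nt.OddBases
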